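import Pool.Agent.V7H48.VC.Pack

/-! # The maximal inequality over families of sets of bounded Vapnik-Chervonenkis dimension -/

set_option autoImplicit false

namespace Pool.Agent.V7H48.VC

open Finset

variable {α β : Type*} [DecidableEq β]

/-- The traces on `B` of the sets `J a`, `a ∈ A`, have Vapnik-Chervonenkis dimension at most `d`:
if every subset of a set `T ⊆ B` is of the form `J a ∩ T` with `a ∈ A` then `T` has at most `d`
elements. -/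
def VCle (A : Finset α) (B : Finset β) (J : α → Finset β) (d : ℕ) : Prop :=
  ∀ T ⊆ B, (∀ S ⊆ T, ∃ a ∈ A, J a ∩ T = S) → T.card ≤ d

/-- a maximal separated subfamily is a net -/
theorem net (𝓕 : Finset (Finset β)) (B : Finset β) (g : ℝ) :
    ∃ 𝒩 ⊆ 𝓕, (∀ N ∈ 𝒩, ∀ N' ∈ 𝒩, N ≠ N' → g ≤ ((B ∩ (symmDiff N N')).card : ℝ)) ∧
      ∀ X ∈ 𝓕, X ∈ 𝒩 ∨ ∃ N ∈ 𝒩, ((B ∩ (symmDiff X N)).card : ℝ) < g := by
  classical
  let P : Finset (Finset (Finset β)) := 𝓕.powerset.filter fun 𝒩 =>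
    ∀ N ∈ 𝒩, ∀ N' ∈ 𝒩, N ≠ N' → g ≤ ((B ∩ (symmDiff N N')).card : ℝ)
  have hP : P.Nonempty := ⟨∅, by simp [P]⟩
  obtain ⟨𝒩, h𝒩, hmax⟩ := P.exists_max_image card hP
  rw [mem_filter, mem_powerset] at h𝒩
  refine ⟨𝒩, h𝒩.1, h𝒩.2, fun X hX => ?_⟩
  by_contra hcon
  push Not at hcon
  obtain ⟨hX1, hX2⟩ := hcon
  have h1 : insert X 𝒩 ∈ P := by
    rw [mem_filter, mem_powerset]
    refine ⟨insert_subset hX h𝒩.1, ?_⟩
    intro N hN N' hN' hne
    rw [mem_insert] at hN hN'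
    rcases hN with rfl | hN
    · rcases hN' with rfl | hN'
      · exact absurd rfl hne
      · exact hX2 N' hN'
    · rcases hN' with rfl | hN'
      · rw [symmDiff_comm]
        exact hX2 N hN
      · exact h𝒩.2 N hN N' hN' hne
  have h2 := hmax _ h1
  rw [card_insert_of_notMem hX1] at h2
  omega

/-- sums over two sets which differ in few elements -/
theorem sum_diff (f : β → ℂ) (hf : ∀ b, ‖f b‖ ≤ 1) (X N : Finset β) :
    ‖∑ b ∈ X, f b‖ ≤ ‖∑ b ∈ N, f b‖ + (symmDiff X N).card := by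
  have h1 : ∑ b ∈ X, f b = ∑ b ∈ N, f b + (∑ b ∈ X \ N, f b - ∑ b ∈ N \ X, f b) := by
    rw [← sum_inter_add_sum_sdiff X N f, ← sum_inter_add_sum_sdiff N X f, inter_comm N X]
    ring
  have hb : ∀ Y : Finset β, ‖∑ b ∈ Y, f b‖ ≤ Y.card := fun Y => by
    refine (norm_sum_le _ _).trans ?_
    calc ∑ b ∈ Y, ‖f b‖ ≤ ∑ b ∈ Y, (1 : ℝ) := sum_le_sum fun b _ => hf b
      _ = Y.card := by simp
  have hc : (symmDiff X N).card = (X \ N).card + (N \ X).card := by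
    rw [symmDiff_def, sup_eq_union, card_union_of_disjoint]
    exact disjoint_sdiff_sdiff
  rw [h1, hc]
  push_cast
  calc _ ≤ ‖∑ b ∈ N, f b‖ + ‖∑ b ∈ X \ N, f b - ∑ b ∈ N \ X, f b‖ := norm_add_le _ _
    _ ≤ ‖∑ b ∈ N, f b‖ + (‖∑ b ∈ X \ N, f b‖ + ‖∑ b ∈ N \ X, f b‖) := by
        gcongr
        exact norm_sub_le _ _
    _ ≤ _ := by
        gcongr
        · exact hb _
        · exact hb _

/-- **The maximal inequality**, from the second moments over all subsets of `B`. -/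
theorem maximal (A : Finset α) (B : Finset β) (k : α → β → ℂ) (hk : ∀ a b, ‖k a b‖ ≤ 1)
    (η : ℝ) (hη : 0 < η)
    (H : ∀ N ⊆ B, ∑ a ∈ A, ‖∑ b ∈ N, k a b‖ ^ 2 ≤ η ^ 2 * A.card * (B.card : ℝ) ^ 2)
    (d : ℕ) (J : α → Finset β) (hJ : VCle A B J d) :
    ∑ a ∈ A, ‖∑ b ∈ B ∩ J a, k a b‖ ≤ 8 * η ^ ((1 : ℝ) / (d + 1)) * A.card * B.card := by
  classical
  have hd : (0 : ℝ) < (d : ℝ) + 1 := by positivity
  -- trivial bound
  have htriv : ∑ a ∈ A, ‖∑ b ∈ B ∩ J a, k a b‖ ≤ (A.card : ℝ) * B.card := by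
    calc ∑ a ∈ A, ‖∑ b ∈ B ∩ J a, k a b‖ ≤ ∑ a ∈ A, (B.card : ℝ) := by
          refine sum_le_sum fun a _ => ?_
          refine (norm_sum_le _ _).trans ?_
          calc ∑ b ∈ B ∩ J a, ‖k a b‖ ≤ ∑ b ∈ B ∩ J a, (1 : ℝ) := sum_le_sum fun b _ => hk a b
            _ = ((B ∩ J a).card : ℝ) := by simp
            _ ≤ B.card := by exact_mod_cast card_le_card inter_subset_left
      _ = _ := by rw [sum_const, nsmul_eq_mul]
  rcases B.eq_empty_or_nonempty with hB0 | hB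
  · subst hB0
    simp
  set x : ℝ := (η / 3) ^ ((1 : ℝ) / (d + 1)) with hx
  have hx0 : 0 < x := by rw [hx]; positivity
  have hxη : x ≤ η ^ ((1 : ℝ) / (d + 1)) := by
    rw [hx]
    exact Real.rpow_le_rpow (by positivity) (by linarith) (by positivity)
  have hxd : x ^ (d + 1) = η / 3 := by
    rw [hx, ← Real.rpow_natCast, ← Real.rpow_mul (by positivity)]
    push_cast
    rw [one_div_mul_cancel hd.ne', Real.rpow_one]
  have hAB : (0 : ℝ) ≤ (A.card : ℝ) * B.card := by positivity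
  suffices h8 : ∑ a ∈ A, ‖∑ b ∈ B ∩ J a, k a b‖ ≤ 8 * x * ((A.card : ℝ) * B.card) by
    calc _ ≤ 8 * x * ((A.card : ℝ) * B.card) := h8
      _ ≤ 8 * η ^ ((1 : ℝ) / (d + 1)) * ((A.card : ℝ) * B.card) :=
          mul_le_mul_of_nonneg_right (by linarith) hAB
      _ = _ := by ring
  rcases lt_or_ge 1 (4 * x) with h4 | h4
  · refine htriv.trans ?_
    have : (1 : ℝ) ≤ 8 * x := by linarith
    calc (A.card : ℝ) * B.card = 1 * ((A.card : ℝ) * B.card) := (one_mul _).symm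
      _ ≤ _ := mul_le_mul_of_nonneg_right this hAB
  -- the net
  obtain ⟨𝒩, h𝒩, hsep, hnet⟩ := net (A.image fun a => B ∩ J a) B (4 * x * B.card)
  have hsubB : ∀ N ∈ 𝒩, N ⊆ B := fun N hN => by
    obtain ⟨a, -, rfl⟩ := mem_image.1 (h𝒩 hN)
    exact inter_subset_left
  have hdim : Dim 𝒩 B d := by
    intro T hT hS
    refine hJ T hT fun S hST => ?_
    obtain ⟨N, hN, hNT⟩ := hS S hST
    obtain ⟨a, ha, rfl⟩ := mem_image.1 (h𝒩 hN)
    refine ⟨a, ha, ?_⟩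
    rw [← hNT]
    ext y
    simp only [mem_inter]
    exact ⟨fun ⟨h1, h2⟩ => ⟨⟨hT h2, h1⟩, h2⟩, fun ⟨⟨_, h1⟩, h2⟩ => ⟨h1, h2⟩⟩
  have hpack := packing 𝒩 B d hdim (4 * x) (by positivity) h4 hB hsep
  have hnet' : ∀ a ∈ A, ∃ N ∈ 𝒩, ((symmDiff (B ∩ J a) N).card : ℝ) ≤ 4 * x * B.card := by
    intro a ha
    rcases hnet (B ∩ J a) (mem_image_of_mem _ ha) with h1 | ⟨N, hN, h1⟩
    · refine ⟨_, h1, ?_⟩
      rw [symmDiff_self]
      simp
      positivity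
    · refine ⟨N, hN, ?_⟩
      have h2 : B ∩ (symmDiff (B ∩ J a) N) = symmDiff (B ∩ J a) N := by
        refine inter_eq_right.2 ?_
        intro y hy
        rw [mem_symmDiff] at hy
        rcases hy with ⟨h3, -⟩ | ⟨h3, -⟩
        · exact (mem_inter.1 h3).1
        · exact hsubB N hN h3
      rw [h2] at h1
      exact h1.le
  choose! M hM hMd using hnet'
  have h1 : ∑ a ∈ A, ‖∑ b ∈ B ∩ J a, k a b‖ ≤
      ∑ a ∈ A, ‖∑ b ∈ M a, k a b‖ + 4 * x * ((A.card : ℝ) * B.card) := by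
    calc ∑ a ∈ A, ‖∑ b ∈ B ∩ J a, k a b‖ ≤ ∑ a ∈ A, (‖∑ b ∈ M a, k a b‖ + 4 * x * B.card) := by
          refine sum_le_sum fun a ha => ?_
          refine (sum_diff (k a) (hk a) _ (M a)).trans ?_
          gcongr
          exact hMd a ha
      _ = _ := by rw [sum_add_distrib, sum_const, nsmul_eq_mul]; ring
  have h2 : (∑ a ∈ A, ‖∑ b ∈ M a, k a b‖) ^ 2 ≤
      (Real.sqrt 𝒩.card * η * ((A.card : ℝ) * B.card)) ^ 2 := by
    calc (∑ a ∈ A, ‖∑ b ∈ M a, k a b‖) ^ 2 ≤ A.card * ∑ a ∈ A, ‖∑ b ∈ M a, k a b‖ ^ 2 :=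
          sq_sum_le_card_mul_sum_sq
      _ ≤ A.card * ∑ a ∈ A, ∑ N ∈ 𝒩, ‖∑ b ∈ N, k a b‖ ^ 2 := by
          gcongr with a ha
          exact single_le_sum (f := fun N => ‖∑ b ∈ N, k a b‖ ^ 2) (fun _ _ => sq_nonneg _)
            (hM a ha)
      _ = A.card * ∑ N ∈ 𝒩, ∑ a ∈ A, ‖∑ b ∈ N, k a b‖ ^ 2 := by rw [sum_comm]
      _ ≤ A.card * ∑ N ∈ 𝒩, η ^ 2 * A.card * (B.card : ℝ) ^ 2 := by
          gcongr with N hN
          exact H N (hsubB N hN)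
      _ = (Real.sqrt 𝒩.card) ^ 2 * (η ^ 2 * ((A.card : ℝ) * B.card) ^ 2) := by
          rw [sum_const, nsmul_eq_mul, Real.sq_sqrt (Nat.cast_nonneg _)]
          ring
      _ = _ := by ring
  have h3 : ∑ a ∈ A, ‖∑ b ∈ M a, k a b‖ ≤ Real.sqrt 𝒩.card * η * ((A.card : ℝ) * B.card) :=
    (pow_le_pow_iff_left₀ (sum_nonneg fun _ _ => norm_nonneg _) (by positivity) two_ne_zero).1 h2
  have h5 : Real.sqrt 𝒩.card * η ≤ 4 * x := by
    have h6 : (4 / (4 * x)) ^ d * x ^ d = 1 := by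
      rw [← mul_pow]
      have : 4 / (4 * x) * x = 1 := by field_simp
      rw [this, one_pow]
    calc Real.sqrt 𝒩.card * η ≤ 4 / 3 * (4 / (4 * x)) ^ d * η :=
          mul_le_mul_of_nonneg_right hpack hη.le
      _ = 4 / 3 * (4 / (4 * x)) ^ d * (3 * x ^ (d + 1)) := by rw [hxd]; ring
      _ = 4 * x * ((4 / (4 * x)) ^ d * x ^ d) := by rw [pow_succ]; ring
      _ = 4 * x := by rw [h6, mul_one]
  calc _ ≤ ∑ a ∈ A, ‖∑ b ∈ M a, k a b‖ + 4 * x * ((A.card : ℝ) * B.card) := h1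
    _ ≤ Real.sqrt 𝒩.card * η * ((A.card : ℝ) * B.card) + 4 * x * ((A.card : ℝ) * B.card) := by
        gcongr
    _ ≤ 4 * x * ((A.card : ℝ) * B.card) + 4 * x * ((A.card : ℝ) * B.card) := by
        gcongr
    _ = _ := by ring

/-- bilinear bounds over all subsets give the first moments over the subsets of `B` -/
theorem first_moment (A : Finset α) (B : Finset β) (k : α → β → ℂ) (D : ℝ)
    (H : ∀ M ⊆ A, ∀ N ⊆ B, ‖∑ a ∈ M, ∑ b ∈ N, k a b‖ ≤ D) (N : Finset β) (hN : N ⊆ B) :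
    ∑ a ∈ A, ‖∑ b ∈ N, k a b‖ ≤ 4 * D := by
  classical
  have key : ∀ f : α → ℝ, (∀ M ⊆ A, |∑ a ∈ M, f a| ≤ D) → ∑ a ∈ A, |f a| ≤ 2 * D := by
    intro f hf
    have h1 := hf (A.filter fun a => 0 ≤ f a) (filter_subset _ _)
    have h2 := hf (A.filter fun a => ¬ 0 ≤ f a) (filter_subset _ _)
    rw [← sum_filter_add_sum_filter_not A (fun a => 0 ≤ f a) (fun a => |f a|)]
    have e1 : ∑ a ∈ A.filter (fun a => 0 ≤ f a), |f a| = ∑ a ∈ A.filter (fun a => 0 ≤ f a), f a :=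
      sum_congr rfl fun a ha => abs_of_nonneg (mem_filter.1 ha).2
    have e2 : ∑ a ∈ A.filter (fun a => ¬ 0 ≤ f a), |f a| =
        - ∑ a ∈ A.filter (fun a => ¬ 0 ≤ f a), f a := by
      rw [← sum_neg_distrib]
      exact sum_congr rfl fun a ha => abs_of_neg (not_le.1 (mem_filter.1 ha).2)
    rw [e1, e2]
    have h3 := le_abs_self (∑ a ∈ A.filter (fun a => 0 ≤ f a), f a)
    have h4 := neg_abs_le (∑ a ∈ A.filter (fun a => ¬ 0 ≤ f a), f a)
    linarith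
  have hre := key (fun a => (∑ b ∈ N, k a b).re) fun M hM => by
    rw [← Complex.re_sum]
    exact (Complex.abs_re_le_norm _).trans (H M hM N hN)
  have him := key (fun a => (∑ b ∈ N, k a b).im) fun M hM => by
    rw [← Complex.im_sum]
    exact (Complex.abs_im_le_norm _).trans (H M hM N hN)
  calc ∑ a ∈ A, ‖∑ b ∈ N, k a b‖ ≤
      ∑ a ∈ A, (|(∑ b ∈ N, k a b).re| + |(∑ b ∈ N, k a b).im|) :=
        sum_le_sum fun a _ => Complex.norm_le_abs_re_add_abs_im _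
    _ ≤ 4 * D := by rw [sum_add_distrib]; linarith

/-- **The maximal inequality**, from the bilinear bound over all pairs of subsets. -/
theorem maximal' (A : Finset α) (B : Finset β) (k : α → β → ℂ) (hk : ∀ a b, ‖k a b‖ ≤ 1)
    (η : ℝ) (hη : 0 < η)
    (H : ∀ M ⊆ A, ∀ N ⊆ B, ‖∑ a ∈ M, ∑ b ∈ N, k a b‖ ≤ η * A.card * B.card)
    (d : ℕ) (J : α → Finset β) (hJ : VCle A B J d) :
    ∑ a ∈ A, ‖∑ b ∈ B ∩ J a, k a b‖ ≤
      16 * (η ^ ((1 : ℝ) / 2)) ^ ((1 : ℝ) / (d + 1)) * A.card * B.card := by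
  have hd : (0 : ℝ) < (d : ℝ) + 1 := by positivity
  have hη2 : (η ^ ((1 : ℝ) / 2)) ^ 2 = η := by
    rw [← Real.rpow_natCast, ← Real.rpow_mul hη.le]
    norm_num
  have h1 := maximal A B k hk (2 * η ^ ((1 : ℝ) / 2)) (by positivity) (fun N hN => by
    have h2 := first_moment A B k _ H N hN
    have h3 : ∀ a, ‖∑ b ∈ N, k a b‖ ≤ B.card := fun a => by
      refine (norm_sum_le _ _).trans ?_
      calc ∑ b ∈ N, ‖k a b‖ ≤ ∑ b ∈ N, (1 : ℝ) := sum_le_sum fun b _ => hk a b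
        _ = (N.card : ℝ) := by simp
        _ ≤ B.card := by exact_mod_cast card_le_card hN
    calc ∑ a ∈ A, ‖∑ b ∈ N, k a b‖ ^ 2 ≤ ∑ a ∈ A, B.card * ‖∑ b ∈ N, k a b‖ := by
          refine sum_le_sum fun a _ => ?_
          rw [sq]
          exact mul_le_mul_of_nonneg_right (h3 a) (norm_nonneg _)
      _ = B.card * ∑ a ∈ A, ‖∑ b ∈ N, k a b‖ := by rw [mul_sum]
      _ ≤ B.card * (4 * (η * A.card * B.card)) :=
          mul_le_mul_of_nonneg_left h2 (Nat.cast_nonneg _)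
      _ = (2 * η ^ ((1 : ℝ) / 2)) ^ 2 * A.card * (B.card : ℝ) ^ 2 := by
          rw [mul_pow, hη2]; ring) d J hJ
  refine h1.trans ?_
  have h4 : (2 * η ^ ((1 : ℝ) / 2)) ^ ((1 : ℝ) / (d + 1)) ≤
      2 * (η ^ ((1 : ℝ) / 2)) ^ ((1 : ℝ) / (d + 1)) := by
    rw [Real.mul_rpow (by norm_num) (by positivity)]
    refine mul_le_mul_of_nonneg_right ?_ (by positivity)
    calc (2 : ℝ) ^ ((1 : ℝ) / (d + 1)) ≤ 2 ^ (1 : ℝ) := by
          refine Real.rpow_le_rpow_of_exponent_le (by norm_num) ?_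
          rw [div_le_one hd]
          linarith [Nat.cast_nonneg (α := ℝ) d]
      _ = 2 := Real.rpow_one 2
  calc 8 * (2 * η ^ ((1 : ℝ) / 2)) ^ ((1 : ℝ) / (d + 1)) * A.card * B.card ≤
      8 * (2 * (η ^ ((1 : ℝ) / 2)) ^ ((1 : ℝ) / (d + 1))) * A.card * B.card := by
        gcongr
    _ = _ := by ring

/-- the constant family has dimension zero -/
theorem vcle_const (A : Finset α) (B C : Finset β) : VCle A B (fun _ => C) 0 := by
  intro T _ h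
  obtain ⟨a, _, h1⟩ := h ∅ (empty_subset _)
  obtain ⟨a', _, h2⟩ := h T subset_rfl
  rw [← h2, h1]
  simp

end Pool.Agent.V7H48.VC
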