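import Pool.Agent.V7H48.VC.Max
import Pool.Agent.N793.PG.Asym
import Pool.Agent.Y881.PG.Main

/-! # Double character sums: the maximal inequality in the known ranges -/

set_option autoImplicit false

namespace Pool.Agent.V7H48.VC

open Finset Pool.Agent.N793.PG

/-- For every `d` and all sets `J a`, `a ∈ A`, whose traces on `B` have Vapnik-Chervonenkis
dimension at most `d`, the sum over `a ∈ A` of the absolute values of the partial sums of
`χ (a + b)` over `b ∈ B ∩ J a` is at most `16 η ^ (1 / (d + 1)) |A| |B|`. -/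
def MaxBound {p : ℕ} (χ : MulChar (ZMod p) ℂ) (A B : Finset (ZMod p)) (η : ℝ) : Prop :=
  ∀ (d : ℕ) (J : ZMod p → Finset (ZMod p)), VCle A B J d →
    ∑ a ∈ A, ‖∑ b ∈ B ∩ J a, χ (a + b)‖ ≤ 16 * η ^ ((1 : ℝ) / (d + 1)) * A.card * B.card

/-- For all large primes `p`, all sets `A`, `B` with more than `p ^ α`, `p ^ α'` elements and all
nontrivial characters in the family `F`, the maximal inequality with `η = p ^ (-δ)`. -/
def MaxSaves (F : ∀ p : ℕ, MulChar (ZMod p) ℂ → Prop) (α α' δ : ℝ) : Prop :=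
  ∃ p₀ : ℕ, ∀ p : ℕ, p.Prime → p₀ < p → ∀ A B : Finset (ZMod p),
    (p : ℝ) ^ α < (A.card : ℝ) → (p : ℝ) ^ α' < (B.card : ℝ) →
      ∀ χ : MulChar (ZMod p) ℂ, χ ≠ 1 → F p χ → MaxBound χ A B ((p : ℝ) ^ (-δ))

section onePrime

variable {p : ℕ} [Fact p.Prime] (χ : MulChar (ZMod p) ℂ)

/-- the second moment over the subsets of `B` -/
theorem second_set (hχ : χ ≠ 1) (A N : Finset (ZMod p)) :
    ∑ a ∈ A, ‖∑ b ∈ N, χ (a + b)‖ ^ 2 ≤ (p : ℝ) * N.card := by
  classical
  have h := second χ hχ (fun y => if y ∈ N then 1 else 0)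
  have e1 : ∀ x : ZMod p, ∑ y : ZMod p, (((if y ∈ N then (1 : ℝ) else 0 : ℝ) : ℂ)) * χ (x + y) =
      ∑ b ∈ N, χ (x + b) := by
    intro x
    rw [← sum_filter_add_sum_filter_not univ (fun y => y ∈ N)]
    rw [show ∑ y ∈ univ.filter (fun y => ¬ y ∈ N),
        (((if y ∈ N then (1 : ℝ) else 0 : ℝ) : ℂ)) * χ (x + y) = 0 by
      refine sum_eq_zero fun y hy => ?_
      rw [if_neg (mem_filter.1 hy).2]; simp]
    rw [add_zero, filter_mem_eq_inter, univ_inter]
    refine sum_congr rfl fun y hy => ?_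
    rw [if_pos hy]; simp
  have e2 : ∑ y : ZMod p, ((if y ∈ N then (1 : ℝ) else 0 : ℝ)) ^ 2 = N.card := by
    rw [← sum_filter_add_sum_filter_not univ (fun y => y ∈ N)]
    rw [show ∑ y ∈ univ.filter (fun y => ¬ y ∈ N), ((if y ∈ N then (1 : ℝ) else 0 : ℝ)) ^ 2 = 0 by
      refine sum_eq_zero fun y hy => ?_
      rw [if_neg (mem_filter.1 hy).2]; simp]
    rw [add_zero, filter_mem_eq_inter, univ_inter]
    rw [sum_congr rfl fun y hy => by rw [if_pos hy]]
    simp
  simp only [e1] at h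
  rw [e2] at h
  exact (sum_le_sum_of_subset_of_nonneg (subset_univ A) fun _ _ _ => sq_nonneg _).trans h

/-- the maximal inequality in the classical range, every prime, explicit -/
theorem classical_max (hχ : χ ≠ 1) (A B : Finset (ZMod p)) (d : ℕ) (J : ZMod p → Finset (ZMod p))
    (hJ : VCle A B J d) :
    ∑ a ∈ A, ‖∑ b ∈ B ∩ J a, χ (a + b)‖ ≤
      8 * ((p : ℝ) / (A.card * B.card)) ^ ((1 : ℝ) / (2 * (d + 1))) * A.card * B.card := by
  rcases A.eq_empty_or_nonempty with rfl | hA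
  · simp
  rcases B.eq_empty_or_nonempty with rfl | hB
  · simp
  have hp0 : (0 : ℝ) < p := by exact_mod_cast (Fact.out : p.Prime).pos
  have hA0 : (0 : ℝ) < A.card := by exact_mod_cast hA.card_pos
  have hB0 : (0 : ℝ) < B.card := by exact_mod_cast hB.card_pos
  have hq : 0 < (p : ℝ) / (A.card * B.card) := by positivity
  have h := maximal A B (fun a b => χ (a + b)) (fun a b => norm_le_one χ _)
    (Real.sqrt ((p : ℝ) / (A.card * B.card))) (Real.sqrt_pos.2 hq) (fun N hN => by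
      refine (second_set χ hχ A N).trans ?_
      rw [Real.sq_sqrt hq.le]
      have h1 : (N.card : ℝ) ≤ B.card := by exact_mod_cast card_le_card hN
      calc (p : ℝ) * N.card ≤ p * B.card := mul_le_mul_of_nonneg_left h1 hp0.le
        _ = _ := by field_simp) d J hJ
  refine h.trans (le_of_eq ?_)
  congr 3
  rw [Real.sqrt_eq_rpow, ← Real.rpow_mul hq.le]
  congr 1
  have : (d : ℝ) + 1 ≠ 0 := by positivity
  field_simp

/-- the bound for the whole sets -/
theorem MaxBound.whole {A B : Finset (ZMod p)} {η : ℝ} (h : MaxBound χ A B η) :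
    ‖∑ a ∈ A, ∑ b ∈ B, χ (a + b)‖ ≤ 16 * η * A.card * B.card := by
  have h1 := h 0 (fun _ => B) (vcle_const A B B)
  simp only [inter_self] at h1
  refine (norm_sum_le _ _).trans (h1.trans (le_of_eq ?_))
  norm_num

/-- the maximal inequality from the operator norm -/
theorem of_form (A B : Finset (ZMod p)) (η : ℝ) (hη : 0 < η)
    (h : ∀ α β : ZMod p → ℂ, ‖∑ a ∈ A, ∑ b ∈ B, α a * β b * χ (a + b)‖ ≤
      η * (Real.sqrt (A.card * B.card) * (Real.sqrt (∑ a ∈ A, ‖α a‖ ^ 2) *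
        Real.sqrt (∑ b ∈ B, ‖β b‖ ^ 2)))) : MaxBound χ A B η := by
  classical
  intro d J hJ
  refine (maximal A B (fun a b => χ (a + b)) (fun a b => norm_le_one χ _) η hη
    (fun N hN => ?_) d J hJ).trans ?_
  · set z : ZMod p → ℂ := fun a => ∑ b ∈ N, χ (a + b) with hz
    set S : ℝ := ∑ a ∈ A, ‖z a‖ ^ 2 with hS
    have hS0 : 0 ≤ S := sum_nonneg fun _ _ => sq_nonneg _
    have h1 := h (fun a => (starRingEnd ℂ) (z a)) (fun b => if b ∈ N then 1 else 0)
    have e1 : ∑ a ∈ A, ∑ b ∈ B, (starRingEnd ℂ) (z a) * (if b ∈ N then (1 : ℂ) else 0) *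
        χ (a + b) = (S : ℂ) := by
      rw [hS]
      push_cast
      refine sum_congr rfl fun a _ => ?_
      have e2 : ∑ b ∈ B, (starRingEnd ℂ) (z a) * (if b ∈ N then (1 : ℂ) else 0) * χ (a + b) =
          (starRingEnd ℂ) (z a) * z a := by
        rw [hz]
        simp only
        rw [mul_sum, ← sum_subset hN]
        · refine sum_congr rfl fun b hb => ?_
          rw [if_pos hb, mul_one]
        · intro b _ hb
          rw [if_neg hb]; simp
      rw [e2, mul_comm, Complex.mul_conj, Complex.normSq_eq_norm_sq]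
      push_cast
      rfl
    have e3 : ∑ b ∈ B, ‖(if b ∈ N then (1 : ℂ) else 0)‖ ^ 2 = N.card := by
      rw [← sum_subset hN]
      · rw [sum_congr rfl fun b hb => by rw [if_pos hb]]
        simp
      · intro b _ hb
        rw [if_neg hb]; simp
    have e4 : ∑ a ∈ A, ‖(starRingEnd ℂ) (z a)‖ ^ 2 = S := by
      rw [hS]
      exact sum_congr rfl fun a _ => by rw [RCLike.norm_conj]
    rw [e1, e3, e4, Complex.norm_real, Real.norm_of_nonneg hS0] at h1
    have h2 : S ^ 2 ≤ (η ^ 2 * A.card * (B.card : ℝ) ^ 2) * S := by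
      calc S ^ 2 ≤ (η * (Real.sqrt (A.card * B.card) * (Real.sqrt S * Real.sqrt N.card))) ^ 2 :=
            pow_le_pow_left₀ hS0 h1 2
        _ = η ^ 2 * ((A.card : ℝ) * B.card) * S * N.card := by
            rw [mul_pow, mul_pow, mul_pow, Real.sq_sqrt (by positivity), Real.sq_sqrt hS0,
              Real.sq_sqrt (Nat.cast_nonneg _)]
            ring
        _ ≤ η ^ 2 * ((A.card : ℝ) * B.card) * S * B.card := by
            have : (N.card : ℝ) ≤ B.card := by exact_mod_cast card_le_card hN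
            exact mul_le_mul_of_nonneg_left this (by positivity)
        _ = _ := by ring
    rcases hS0.eq_or_lt with h3 | h3
    · rw [← h3]; positivity
    · rw [sq] at h2
      exact le_of_mul_le_mul_right h2 h3
  · have : 0 ≤ η ^ ((1 : ℝ) / (d + 1)) * A.card * B.card := by positivity
    linarith

end onePrime

variable {F : ∀ p : ℕ, MulChar (ZMod p) ℂ → Prop}

/-- **Transfer.**  A bound for the double sums over all large sets implies the maximal inequality
for all slightly larger sets. -/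
theorem transfer {α α' δ η : ℝ} (h : Saves F α α' δ) :
    MaxSaves F (α + η) (α' + η) (min δ η / 2) := by
  obtain ⟨p₀, h⟩ := h
  refine ⟨p₀, fun p hp hlt A B hA hB χ hχ hF d J hJ => ?_⟩
  have : Fact p.Prime := ⟨hp⟩
  have hp0 : (0 : ℝ) < p := by exact_mod_cast hp.pos
  have hp1 : (1 : ℝ) ≤ p := by exact_mod_cast hp.one_le
  have hle1 : (p : ℝ) ^ (-δ) ≤ (p : ℝ) ^ (-min δ η) :=
    Real.rpow_le_rpow_of_exponent_le hp1 (neg_le_neg (min_le_left _ _))
  have hle2 : (p : ℝ) ^ (-η) ≤ (p : ℝ) ^ (-min δ η) :=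
    Real.rpow_le_rpow_of_exponent_le hp1 (neg_le_neg (min_le_right _ _))
  have hbd : ∀ (M N : Finset (ZMod p)), ‖∑ a ∈ M, ∑ b ∈ N, χ (a + b)‖ ≤ (M.card : ℝ) * N.card := by
    intro M N
    refine (norm_sum_le _ _).trans ?_
    calc ∑ a ∈ M, ‖∑ b ∈ N, χ (a + b)‖ ≤ ∑ a ∈ M, (N.card : ℝ) := by
          refine sum_le_sum fun a _ => (norm_sum_le _ _).trans ?_
          calc ∑ b ∈ N, ‖χ (a + b)‖ ≤ ∑ b ∈ N, (1 : ℝ) := sum_le_sum fun b _ => norm_le_one χ _
            _ = N.card := by simp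
      _ = _ := by rw [sum_const, nsmul_eq_mul]
  have key : ∀ M ⊆ A, ∀ N ⊆ B, ‖∑ a ∈ M, ∑ b ∈ N, χ (a + b)‖ ≤
      (p : ℝ) ^ (-min δ η) * A.card * B.card := by
    intro M hM N hN
    have hMA : (M.card : ℝ) ≤ A.card := by exact_mod_cast card_le_card hM
    have hNB : (N.card : ℝ) ≤ B.card := by exact_mod_cast card_le_card hN
    by_cases h1 : (p : ℝ) ^ α < (M.card : ℝ)
    · by_cases h2 : (p : ℝ) ^ α' < (N.card : ℝ)
      · calc _ ≤ (p : ℝ) ^ (-δ) * M.card * N.card := h p hp hlt M N h1 h2 χ hχ hF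
          _ ≤ _ := by gcongr
      · push Not at h2
        have h3 : (N.card : ℝ) ≤ (p : ℝ) ^ (-η) * B.card := by
          calc (N.card : ℝ) ≤ (p : ℝ) ^ α' := h2
            _ = (p : ℝ) ^ (-η) * (p : ℝ) ^ (α' + η) := by
                rw [← Real.rpow_add hp0]; congr 1; ring
            _ ≤ _ := mul_le_mul_of_nonneg_left hB.le (by positivity)
        calc _ ≤ (M.card : ℝ) * N.card := hbd M N
          _ ≤ A.card * ((p : ℝ) ^ (-min δ η) * B.card) := by
              refine mul_le_mul hMA (h3.trans ?_) (Nat.cast_nonneg _) (Nat.cast_nonneg _)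
              gcongr
          _ = _ := by ring
    · push Not at h1
      have h3 : (M.card : ℝ) ≤ (p : ℝ) ^ (-η) * A.card := by
        calc (M.card : ℝ) ≤ (p : ℝ) ^ α := h1
          _ = (p : ℝ) ^ (-η) * (p : ℝ) ^ (α + η) := by
              rw [← Real.rpow_add hp0]; congr 1; ring
          _ ≤ _ := mul_le_mul_of_nonneg_left hA.le (by positivity)
      calc _ ≤ (M.card : ℝ) * N.card := hbd M N
        _ ≤ ((p : ℝ) ^ (-min δ η) * A.card) * B.card := by
            refine mul_le_mul (h3.trans ?_) hNB (Nat.cast_nonneg _) (by positivity)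
            gcongr
        _ = _ := by ring
  have h4 := maximal' A B (fun a b => χ (a + b)) (fun a b => norm_le_one χ _)
    ((p : ℝ) ^ (-min δ η)) (by positivity) key d J hJ
  have h5 : ((p : ℝ) ^ (-min δ η)) ^ ((1 : ℝ) / 2) = (p : ℝ) ^ (-(min δ η / 2)) := by
    rw [← Real.rpow_mul hp0.le]; congr 1; ring
  rw [h5] at h4
  exact h4

/-- the maximal inequality contains the bound for the double sums -/
theorem MaxSaves.saves {α α' δ δ' : ℝ} (hδ : δ' < δ) (h : MaxSaves F α α' δ) : Saves F α α' δ' := by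
  obtain ⟨p₀, h⟩ := h
  obtain ⟨p₁, hp₁⟩ := large 16 (δ - δ') (by linarith)
  refine ⟨p₀ + p₁, fun p hp hlt A B hA hB χ hχ hF => ?_⟩
  have : Fact p.Prime := ⟨hp⟩
  have hp0 : (0 : ℝ) < p := by exact_mod_cast hp.pos
  refine ((h p hp (by omega) A B hA hB χ hχ hF).whole).trans ?_
  have h1 : 16 * (p : ℝ) ^ (-δ) ≤ (p : ℝ) ^ (-δ') := by
    calc 16 * (p : ℝ) ^ (-δ) ≤ (p : ℝ) ^ (δ - δ') * (p : ℝ) ^ (-δ) :=
          mul_le_mul_of_nonneg_right (hp₁ p (by omega)) (by positivity)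
      _ = _ := by rw [← Real.rpow_add hp0]; congr 1; ring
  gcongr

/-- the range `|A| ≥ p ^ (1/2 + ε)`, `|B| ≥ p ^ ε` -/
theorem karatsuba (ε : ℝ) (hε : 0 < ε) :
    ∃ δ : ℝ, 0 < δ ∧ Saves (fun _ _ => True) (1 / 2 + ε) ε δ := by
  obtain ⟨r, hr⟩ := exists_nat_ge (1 / ε)
  have hr0 : (0 : ℝ) < r := (by positivity : (0 : ℝ) < 1 / ε).trans_le hr
  have hr1 : 1 ≤ r := by
    have : 0 < r := by exact_mod_cast hr0
    omega
  have hrε : 1 ≤ ε * r := by
    rw [div_le_iff₀ hε] at hr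
    linarith
  obtain ⟨p₁, hp₁⟩ := large (3 * Pool.Agent.Y881.PG.CC r) (ε / 2) (by linarith)
  refine ⟨ε / (4 * r), by positivity, p₁, fun p hp hlt A B hA hB χ hχ _ => ?_⟩
  have : Fact p.Prime := ⟨hp⟩
  have hp0 : (0 : ℝ) < p := by exact_mod_cast hp.pos
  have hp1 : (1 : ℝ) ≤ p := by exact_mod_cast hp.one_le
  have hBr : (p : ℝ) ≤ (B.card : ℝ) ^ r := by
    calc (p : ℝ) = (p : ℝ) ^ (1 : ℝ) := (Real.rpow_one _).symm
      _ ≤ (p : ℝ) ^ (ε * r) := Real.rpow_le_rpow_of_exponent_le hp1 hrε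
      _ = ((p : ℝ) ^ ε) ^ r := by rw [Real.rpow_mul hp0.le, Real.rpow_natCast]
      _ ≤ _ := pow_le_pow_left₀ (by positivity) hB.le r
  have hm := Pool.Agent.Y881.PG.m1 χ hχ r hr1 B hBr (fun _ => 1) (fun _ => by simp)
  simp only [one_mul] at hm
  have hm' : ∑ a ∈ A, ‖∑ b ∈ B, χ (a + b)‖ ^ (2 * r) ≤
      Pool.Agent.Y881.PG.CC r * (B.card : ℝ) ^ (2 * r) * Real.sqrt p :=
    (sum_le_sum_of_subset_of_nonneg (subset_univ A) fun _ _ _ => by positivity).trans hm
  have hA0 : (0 : ℝ) < A.card := (by positivity : (0 : ℝ) < (p : ℝ) ^ (1 / 2 + ε)).trans hA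
  have hpow : (∑ a ∈ A, ‖∑ b ∈ B, χ (a + b)‖) ^ (2 * r) ≤
      (A.card : ℝ) ^ (2 * r - 1) * ∑ a ∈ A, ‖∑ b ∈ B, χ (a + b)‖ ^ (2 * r) := by
    have h1 := pow_sum_div_card_le_sum_pow (s := A) (f := fun a => ‖∑ b ∈ B, χ (a + b)‖)
      (fun a _ => norm_nonneg _) (2 * r - 1)
    rw [show 2 * r - 1 + 1 = 2 * r by omega, div_le_iff₀ (by positivity)] at h1
    linarith
  have hX : ‖∑ a ∈ A, ∑ b ∈ B, χ (a + b)‖ ^ (2 * r) ≤
      Pool.Agent.Y881.PG.CC r * (3 * (p : ℝ) ^ (-ε)) * ((A.card : ℝ) * B.card) ^ (2 * r) := by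
    have hsq : Real.sqrt p ≤ (p : ℝ) ^ (-ε) * A.card := by
      calc Real.sqrt p = (p : ℝ) ^ ((1 : ℝ) / 2) := Real.sqrt_eq_rpow _
        _ = (p : ℝ) ^ (-ε) * (p : ℝ) ^ (1 / 2 + ε) := by
            rw [← Real.rpow_add hp0]; congr 1; ring
        _ ≤ _ := mul_le_mul_of_nonneg_left hA.le (by positivity)
    have e : (A.card : ℝ) ^ (2 * r) = (A.card : ℝ) ^ (2 * r - 1) * A.card := by
      rw [← pow_succ]; congr 1; omega
    have hCC := Pool.Agent.Y881.PG.CC_nonneg r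
    calc ‖∑ a ∈ A, ∑ b ∈ B, χ (a + b)‖ ^ (2 * r) ≤
        (∑ a ∈ A, ‖∑ b ∈ B, χ (a + b)‖) ^ (2 * r) :=
          pow_le_pow_left₀ (norm_nonneg _) (norm_sum_le _ _) _
      _ ≤ (A.card : ℝ) ^ (2 * r - 1) *
          (Pool.Agent.Y881.PG.CC r * (B.card : ℝ) ^ (2 * r) * Real.sqrt p) :=
          hpow.trans (mul_le_mul_of_nonneg_left hm' (by positivity))
      _ ≤ (A.card : ℝ) ^ (2 * r - 1) *
          (Pool.Agent.Y881.PG.CC r * (B.card : ℝ) ^ (2 * r) * ((p : ℝ) ^ (-ε) * A.card)) := by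
          gcongr
      _ = Pool.Agent.Y881.PG.CC r * (p : ℝ) ^ (-ε) * ((A.card : ℝ) * B.card) ^ (2 * r) := by
          rw [mul_pow, e]; ring
      _ ≤ _ := by
          have : (p : ℝ) ^ (-ε) ≤ 3 * (p : ℝ) ^ (-ε) := by
            have : 0 < (p : ℝ) ^ (-ε) := by positivity
            linarith
          gcongr
  have := Pool.Agent.Y881.PG.root_step (p := p) r hr1 ε (Pool.Agent.Y881.PG.CC r)
    ‖∑ a ∈ A, ∑ b ∈ B, χ (a + b)‖ ((A.card : ℝ) * B.card) (norm_nonneg _) (by positivity) hp1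
    (hp₁ p hlt) hX
  calc _ ≤ _ := this
    _ = _ := by ring

/-- the transposed range -/
theorem Saves.swap {α α' δ : ℝ} (h : Saves F α α' δ) : Saves F α' α δ := by
  obtain ⟨p₀, h⟩ := h
  refine ⟨p₀, fun p hp hlt A B hA hB χ hχ hF => ?_⟩
  have h1 := h p hp hlt B A hB hA χ hχ hF
  rw [sum_comm]
  simp only [add_comm] at h1 ⊢
  calc _ ≤ _ := h1
    _ = _ := by ring

end Pool.Agent.V7H48.VC
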