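import Pool.Agent.V7H48.VC.Shatter
import Pool.Agent.R111.PG.Main
import Pool.Agent.R111.PG.Op

/-! # The maximal inequality for arbitrary sets: almost all characters, almost all affine images -/

set_option autoImplicit false

namespace Pool.Agent.V7H48.VC

open Finset Pool.Agent.N793.PG

/-- arbitrary sets, almost all characters -/
theorem few_characters (ε : ℝ) (hε : 0 < ε) : ∃ c : ℝ, 0 < c ∧ ∃ δ : ℝ, 0 < δ ∧ ∃ p₀ : ℕ,
    ∀ (p : ℕ) [Fact p.Prime], p₀ ≤ p → ∀ A B : Finset (ZMod p),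
    (p : ℝ) ^ ε ≤ A.card → (p : ℝ) ^ ε ≤ B.card →
    (({χ : MulChar (ZMod p) ℂ | χ ≠ 1 ∧ ¬ MaxBound χ A B ((p : ℝ) ^ (-δ))}.ncard : ℕ) : ℝ) ≤
      (p : ℝ) ^ (1 - c) / max (A.card : ℝ) B.card := by
  obtain ⟨c, hc, δ, hδ, p₀, h⟩ := Pool.Agent.R111.PG.few_forms ε hε
  refine ⟨c, hc, δ, hδ, p₀, fun p _ hp A B hA hB => ?_⟩
  refine le_trans ?_ (h p hp A B hA hB)
  refine Nat.cast_le.2 (Set.ncard_le_ncard ?_ (Set.toFinite _))
  rintro χ ⟨hχ, hbad⟩
  refine ⟨hχ, ?_⟩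
  by_contra hcon
  push Not at hcon
  have hp0 : (0 : ℝ) < p := by exact_mod_cast (Fact.out : p.Prime).pos
  exact hbad (of_form χ A B _ (by positivity) hcon)

/-- arbitrary sets, every character, almost all affine images -/
theorem few_images (ε : ℝ) (hε : 0 < ε) : ∃ c : ℝ, 0 < c ∧ ∃ δ : ℝ, 0 < δ ∧ ∃ p₀ : ℕ,
    ∀ (p : ℕ) [Fact p.Prime], p₀ ≤ p → ∀ χ : MulChar (ZMod p) ℂ, χ ≠ 1 →
    ∀ A B : Finset (ZMod p), (p : ℝ) ^ ε ≤ A.card → (p : ℝ) ^ ε ≤ B.card →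
      (({g : ZMod p × ZMod p | g.2 ≠ 0 ∧
        ¬ MaxBound χ A (B.image fun b => g.1 + g.2 * b) ((p : ℝ) ^ (-δ))}.ncard : ℕ) : ℝ) ≤
        (p : ℝ) ^ (1 - c) := by
  obtain ⟨c, hc, δ, hδ, p₀, h⟩ := Pool.Agent.R111.PG.few_affine ε hε
  refine ⟨c, hc, δ, hδ, p₀, fun p _ hp χ hχ A B hA hB => ?_⟩
  refine le_trans ?_ (h p hp χ hχ A B hA hB)
  refine Nat.cast_le.2 (Set.ncard_le_ncard ?_ (Set.toFinite _))
  rintro g ⟨hg, hbad⟩
  refine ⟨hg, ?_⟩
  by_contra hcon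
  push Not at hcon
  have hp0 : (0 : ℝ) < p := by exact_mod_cast (Fact.out : p.Prime).pos
  have hinj : Function.Injective fun b : ZMod p => g.1 + g.2 * b := by
    intro x y hxy
    exact mul_left_cancel₀ hg (add_left_cancel hxy)
  refine hbad (of_form χ A _ _ (by positivity) fun α β => ?_)
  have h1 := hcon α (fun b => β (g.1 + g.2 * b))
  rw [card_image_of_injective _ hinj, sum_image fun x _ y _ hxy => hinj hxy]
  simp only [sum_image fun x _ y _ hxy => hinj hxy]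
  exact h1

/-- shattered sets of logarithmic size, for the quadratic characters -/
theorem MaxSaves.log {α α' δ : ℝ} (hα' : 0 < α') (hδ : 0 < δ)
    (h : MaxSaves (fun _ χ => ∀ t, χ t = 0 ∨ χ t = 1 ∨ χ t = -1) α α' δ) :
    ∃ p₀ : ℕ, ∀ p : ℕ, p.Prime → p₀ < p → ∀ A B : Finset (ZMod p),
      (p : ℝ) ^ α < (A.card : ℝ) → (p : ℝ) ^ α' < (B.card : ℝ) →
        ∀ χ : MulChar (ZMod p) ℂ, χ ≠ 1 → (∀ t, χ t = 0 ∨ χ t = 1 ∨ χ t = -1) →
          ∃ T ⊆ B, δ / 8 * Real.log p ≤ T.card ∧ Cuts χ A T := by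
  obtain ⟨p₀, h⟩ := h
  obtain ⟨p₁, hp₁⟩ := large 10 α' hα'
  obtain ⟨p₂, hp₂⟩ := large (Real.exp 1) (δ / 8) (by linarith)
  refine ⟨p₀ + p₁ + p₂, fun p hp hlt A B hA hB χ hχ hq => ?_⟩
  have : Fact p.Prime := ⟨hp⟩
  have hp0 : (0 : ℝ) < p := by exact_mod_cast hp.pos
  have hlog : 1 ≤ δ / 8 * Real.log p := by
    have h1 := hp₂ p (by omega)
    have h2 := Real.log_le_log (Real.exp_pos 1) h1
    rw [Real.log_exp, Real.log_rpow hp0] at h2
    exact h2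
  set k : ℕ := ⌊δ / 4 * Real.log p⌋₊ with hk
  have hk1 : (k : ℝ) ≤ δ / 4 * Real.log p := Nat.floor_le (by linarith)
  have hk2 : δ / 4 * Real.log p < k + 1 := Nat.lt_floor_add_one _
  have hk3 : δ / 8 * Real.log p ≤ k := by linarith
  have hk4 : 1 ≤ k := by
    have : (1 : ℝ) ≤ k := hlog.trans hk3
    exact_mod_cast this
  have hB10 : 10 ≤ B.card := by
    have : (10 : ℝ) ≤ B.card := (hp₁ p (by omega)).trans hB.le
    exact_mod_cast this
  have hA0 : A.Nonempty := by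
    rw [← card_pos]
    have : (0 : ℝ) < A.card := (Real.rpow_pos_of_pos hp0 _).trans hA
    exact_mod_cast this
  obtain ⟨T, hT, hTk, hc⟩ := (h p hp (by omega) A B hA hB χ hχ hq).cuts χ hq (by positivity)
    hA0 hB10 k hk4 (by
      rw [Real.rpow_def_of_pos hp0, Real.exp_le_exp]
      nlinarith)
  exact ⟨T, hT, by rw [hTk]; exact hk3, hc⟩

/-- shattered sets in the classical range -/
theorem classical_cuts {p : ℕ} [Fact p.Prime] (χ : MulChar (ZMod p) ℂ) (hχ : χ ≠ 1)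
    (hq : ∀ t, χ t = 0 ∨ χ t = 1 ∨ χ t = -1) (A B : Finset (ZMod p)) (hB : 10 ≤ B.card) (k : ℕ)
    (hk : 1 ≤ k) (hAB : Real.exp (8 * k) * p ≤ A.card * B.card) :
    ∃ T ⊆ B, T.card = k ∧ Cuts χ A T := by
  have hp0 : (0 : ℝ) < p := by exact_mod_cast (Fact.out : p.Prime).pos
  have hpos : 0 < (A.card : ℝ) * B.card := (by positivity : 0 < Real.exp (8 * k) * p).trans_le hAB
  have hA : A.Nonempty := by
    rw [← card_pos]
    by_contra h
    push Not at h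
    have : A.card = 0 := by omega
    rw [this] at hpos
    simp at hpos
  have hq0 : 0 < (p : ℝ) / (A.card * B.card) := by positivity
  have hmax : MaxBound χ A B (Real.sqrt ((p : ℝ) / (A.card * B.card))) := by
    intro d J hJ
    refine (classical_max χ hχ A B d J hJ).trans ?_
    have e : ((p : ℝ) / (A.card * B.card)) ^ ((1 : ℝ) / (2 * (d + 1))) =
        (Real.sqrt ((p : ℝ) / (A.card * B.card))) ^ ((1 : ℝ) / (d + 1)) := by
      rw [Real.sqrt_eq_rpow, ← Real.rpow_mul hq0.le]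
      congr 1
      have : (d : ℝ) + 1 ≠ 0 := by positivity
      field_simp
    rw [e]
    have : 0 ≤ (Real.sqrt ((p : ℝ) / (A.card * B.card))) ^ ((1 : ℝ) / (d + 1)) := by positivity
    gcongr
    norm_num
  refine hmax.cuts χ hq (Real.sqrt_pos.2 hq0) hA hB k hk ?_
  rw [Real.sqrt_le_left (Real.exp_pos _).le, ← Real.exp_nat_mul, div_le_iff₀ hpos]
  have h1 : Real.exp (((2 : ℕ) : ℝ) * -(4 * k)) * Real.exp (8 * k) = 1 := by
    rw [← Real.exp_add]
    convert Real.exp_zero using 2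
    push_cast
    ring
  calc (p : ℝ) = Real.exp (((2 : ℕ) : ℝ) * -(4 * k)) * (Real.exp (8 * k) * p) := by
        rw [← mul_assoc, h1, one_mul]
    _ ≤ _ := mul_le_mul_of_nonneg_left hAB (Real.exp_pos _).le

end Pool.Agent.V7H48.VC
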