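import Mathlib

/-! # Families of sets of bounded Vapnik-Chervonenkis dimension: separated families are small

The packing lemma (in a simple form with an explicit constant) for families of subsets of a finite
set `B` which shatter no subset of `B` with more than `d` elements.
-/

set_option autoImplicit false

namespace Pool.Agent.V7H48.VC

open Finset

variable {β : Type*} [DecidableEq β]

/-- the family `𝒩` shatters no subset of `B` with more than `d` elements -/
def Dim (𝒩 : Finset (Finset β)) (B : Finset β) (d : ℕ) : Prop :=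
  ∀ T ⊆ B, (∀ S ⊆ T, ∃ N ∈ 𝒩, N ∩ T = S) → T.card ≤ d

omit [DecidableEq β] in
/-- the number of subsets with at most `d` elements -/
theorem few_small (T : Finset β) (d : ℕ) (t : ℝ) (ht : 0 < t) (ht1 : t ≤ 1)
    (𝒮 : Finset (Finset β)) (h1 : ∀ S ∈ 𝒮, S ⊆ T) (h2 : ∀ S ∈ 𝒮, S.card ≤ d) :
    (𝒮.card : ℝ) * t ^ d ≤ (1 + t) ^ T.card := by
  have e : ∑ S ∈ T.powerset, t ^ S.card = (1 + t) ^ T.card := by
    rw [add_comm]
    have := (Finset.sum_pow_mul_eq_add_pow t 1 T)
    simpa using this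
  calc (𝒮.card : ℝ) * t ^ d = ∑ S ∈ 𝒮, t ^ d := by rw [sum_const, nsmul_eq_mul]
    _ ≤ ∑ S ∈ 𝒮, t ^ S.card :=
        sum_le_sum fun S hS => pow_le_pow_of_le_one ht.le ht1 (h2 S hS)
    _ ≤ ∑ S ∈ T.powerset, t ^ S.card :=
        sum_le_sum_of_subset_of_nonneg (fun S hS => mem_powerset.2 (h1 S hS))
          fun _ _ _ => by positivity
    _ = _ := e

/-- the traces on a set `T` of a family of dimension at most `d` -/
theorem few_traces (𝒩 : Finset (Finset β)) (B : Finset β) (d : ℕ) (h : Dim 𝒩 B d)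
    (T : Finset β) (hT : T ⊆ B) (t : ℝ) (ht : 0 < t) (ht1 : t ≤ 1) :
    ((𝒩.image (fun N => N ∩ T)).card : ℝ) * t ^ d ≤ (1 + t) ^ T.card := by
  set 𝒜 := 𝒩.image (fun N => N ∩ T) with h𝒜
  have h0 := 𝒜.card_le_card_shatterer
  have hsub : ∀ S ∈ 𝒜.shatterer, S ⊆ T := by
    intro S hS
    obtain ⟨U, hU, hSU⟩ := (mem_shatterer.1 hS).exists_superset
    rw [h𝒜, mem_image] at hU
    obtain ⟨N, -, rfl⟩ := hU
    exact hSU.trans inter_subset_right
  refine (mul_le_mul_of_nonneg_right (Nat.cast_le.2 h0) (by positivity)).trans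
    (few_small T d t ht ht1 _ hsub ?_)
  intro S hS
  have hST := hsub S hS
  refine h S (hST.trans hT) fun S' hS' => ?_
  obtain ⟨U, hU, hU'⟩ := (mem_shatterer.1 hS) hS'
  rw [h𝒜, mem_image] at hU
  obtain ⟨N, hN, rfl⟩ := hU
  refine ⟨N, hN, ?_⟩
  rw [← hU']
  ext x
  simp only [mem_inter]
  constructor
  · rintro ⟨h1, h2⟩
    exact ⟨h2, h1, hST h2⟩
  · rintro ⟨h1, h2, -⟩
    exact ⟨h2, h1⟩

/-- a short tuple of elements of `B` separates the members of a separated family -/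
theorem separate (𝒩 : Finset (Finset β)) (B : Finset β) (γ : ℝ) (hγ1 : γ ≤ 1)
    (hB : B.Nonempty) (hsep : ∀ N ∈ 𝒩, ∀ N' ∈ 𝒩, N ≠ N' → γ * B.card ≤ ((B ∩ (symmDiff N N')).card : ℝ))
    (hne : 𝒩.Nonempty) (m : ℕ) (hm : (𝒩.card : ℝ) ^ 2 * (1 - γ) ^ m ≤ 1) :
    ∃ T ⊆ B, T.card ≤ m ∧ (𝒩.image (fun N => N ∩ T)).card = 𝒩.card := by
  classical
  -- tuples
  let Ω : Finset (Fin m → β) := Fintype.piFinset fun _ => B
  have hΩ : Ω.card = B.card ^ m := by simp [Ω]
  let bad : Finset β × Finset β → Finset (Fin m → β) := fun q =>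
    Fintype.piFinset fun _ => B \ (symmDiff q.1 q.2)
  have hbad : ∀ q ∈ 𝒩.offDiag, ((bad q).card : ℝ) ≤ ((1 - γ) * B.card) ^ m := by
    intro q hq
    rw [mem_offDiag] at hq
    have h1 := hsep q.1 hq.1 q.2 hq.2.1 hq.2.2
    have h2 : ((B \ (symmDiff q.1 q.2)).card : ℝ) ≤ (1 - γ) * B.card := by
      have h3 := card_sdiff_add_card_inter B (symmDiff q.1 q.2)
      have h4 : ((B \ (symmDiff q.1 q.2)).card : ℝ) + ((B ∩ (symmDiff q.1 q.2)).card : ℝ) = B.card := by
        exact_mod_cast h3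
      linarith
    have h5 : ((bad q).card : ℝ) = ((B \ (symmDiff q.1 q.2)).card : ℝ) ^ m := by
      simp [bad]
    rw [h5]
    exact pow_le_pow_left₀ (Nat.cast_nonneg _) h2 m
  have hBpos : (0 : ℝ) < B.card := by exact_mod_cast hB.card_pos
  have hNpos : (0 : ℝ) < 𝒩.card := by exact_mod_cast hne.card_pos
  have hlt : ((𝒩.offDiag.biUnion bad).card : ℝ) < Ω.card := by
    rcases eq_or_ne m 0 with hm0 | hm0
    · subst hm0
      -- then there is only one member
      have h1 : (𝒩.card : ℝ) ≤ 1 := by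
        have : (𝒩.card : ℝ) ^ 2 ≤ 1 := by simpa using hm
        nlinarith
      have h2 : 𝒩.card ≤ 1 := by exact_mod_cast h1
      have h3 : 𝒩.offDiag = ∅ := by
        ext q
        rw [mem_offDiag]
        constructor
        · rintro ⟨ha, hb, hc⟩
          exact absurd (card_le_one.1 h2 _ ha _ hb) hc
        · intro h
          exact absurd h (notMem_empty _)
      rw [h3, hΩ]
      simp
    · calc ((𝒩.offDiag.biUnion bad).card : ℝ) ≤ ∑ q ∈ 𝒩.offDiag, ((bad q).card : ℝ) := by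
            exact_mod_cast card_biUnion_le
        _ ≤ ∑ q ∈ 𝒩.offDiag, ((1 - γ) * B.card) ^ m := sum_le_sum hbad
        _ = ((𝒩.card : ℝ) * 𝒩.card - 𝒩.card) * ((1 - γ) ^ m * (B.card : ℝ) ^ m) := by
            rw [sum_const, nsmul_eq_mul, offDiag_card, Nat.cast_sub (by nlinarith [hne.card_pos]),
              Nat.cast_mul, mul_pow]
        _ < (B.card : ℝ) ^ m := by
            have h6 : 0 ≤ (1 - γ) ^ m := pow_nonneg (by linarith) m
            have h7 : 0 < (B.card : ℝ) ^ m := by positivity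
            rcases h6.eq_or_lt with h8 | h8
            · rw [← h8]
              simpa using h7
            · have h9 : ((𝒩.card : ℝ) * 𝒩.card - 𝒩.card) * (1 - γ) ^ m < 1 := by
                have : ((𝒩.card : ℝ) * 𝒩.card - 𝒩.card) * (1 - γ) ^ m =
                  (𝒩.card : ℝ) ^ 2 * (1 - γ) ^ m - 𝒩.card * (1 - γ) ^ m := by ring
                rw [this]
                have h10 : 0 < (𝒩.card : ℝ) * (1 - γ) ^ m := by positivity
                linarith
              calc _ = (((𝒩.card : ℝ) * 𝒩.card - 𝒩.card) * (1 - γ) ^ m) * (B.card : ℝ) ^ m := by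
                    ring
                _ < 1 * (B.card : ℝ) ^ m := mul_lt_mul_of_pos_right h9 h7
                _ = _ := one_mul _
        _ = (Ω.card : ℝ) := by rw [hΩ]; push_cast; ring
  have hlt' : (𝒩.offDiag.biUnion bad).card < Ω.card := by exact_mod_cast hlt
  obtain ⟨x, hxΩ, hx⟩ := exists_mem_notMem_of_card_lt_card hlt'
  have hxB : ∀ i, x i ∈ B := fun i => Fintype.mem_piFinset.1 hxΩ i
  refine ⟨univ.image x, ?_, ?_, ?_⟩
  · intro y hy
    obtain ⟨i, -, rfl⟩ := mem_image.1 hy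
    exact hxB i
  · exact card_image_le.trans (by simp)
  · refine card_image_of_injOn ?_
    intro N hN N' hN' hEq
    by_contra hne'
    refine hx (mem_biUnion.2 ⟨(N, N'), mem_offDiag.2 ⟨hN, hN', hne'⟩, ?_⟩)
    refine Fintype.mem_piFinset.2 fun i => ?_
    rw [mem_sdiff]
    refine ⟨hxB i, fun hi => ?_⟩
    have hEq' : N ∩ univ.image x = N' ∩ univ.image x := hEq
    have h1 : x i ∈ univ.image x := mem_image_of_mem _ (mem_univ _)
    have h2 : (x i ∈ N ↔ x i ∈ N') := by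
      have h3 := Finset.ext_iff.1 hEq' (x i)
      simp only [mem_inter, h1, and_true] at h3
      exact h3
    rw [mem_symmDiff] at hi
    tauto

/-- **Packing lemma.**  A family of dimension at most `d` whose members differ pairwise at
`γ |B|` or more elements of `B` has at most `(16/9) (4/γ) ^ (2 d)` members. -/
theorem packing (𝒩 : Finset (Finset β)) (B : Finset β) (d : ℕ) (h : Dim 𝒩 B d)
    (γ : ℝ) (hγ : 0 < γ) (hγ1 : γ ≤ 1) (hB : B.Nonempty)
    (hsep : ∀ N ∈ 𝒩, ∀ N' ∈ 𝒩, N ≠ N' → γ * B.card ≤ ((B ∩ (symmDiff N N')).card : ℝ)) :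
    Real.sqrt 𝒩.card ≤ 4 / 3 * (4 / γ) ^ d := by
  rcases 𝒩.eq_empty_or_nonempty with h0 | hne
  · rw [h0]
    simp
    positivity
  have hN1 : (1 : ℝ) ≤ 𝒩.card := by exact_mod_cast hne.card_pos
  set L : ℝ := Real.log 𝒩.card with hL
  have hL0 : 0 ≤ L := Real.log_nonneg hN1
  set m : ℕ := ⌈2 * L / γ⌉₊ with hm
  have hm1 : 2 * L / γ ≤ m := Nat.le_ceil _
  have hm2 : (m : ℝ) ≤ 2 * L / γ + 1 := (Nat.ceil_lt_add_one (by positivity)).le
  have hexp : (1 - γ) ^ m ≤ Real.exp (-(2 * L)) := by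
    have h1 : 1 - γ ≤ Real.exp (-γ) := by
      have := Real.add_one_le_exp (-γ)
      linarith
    calc (1 - γ) ^ m ≤ (Real.exp (-γ)) ^ m := pow_le_pow_left₀ (by linarith) h1 m
      _ = Real.exp (-(γ * m)) := by rw [← Real.exp_nat_mul]; congr 1; ring
      _ ≤ Real.exp (-(2 * L)) := by
          rw [Real.exp_le_exp]
          have : 2 * L ≤ γ * m := by
            rw [div_le_iff₀ hγ] at hm1
            linarith
          linarith
  have hNL : (𝒩.card : ℝ) = Real.exp L := (Real.exp_log (by linarith)).symm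
  have hm3 : (𝒩.card : ℝ) ^ 2 * (1 - γ) ^ m ≤ 1 := by
    calc (𝒩.card : ℝ) ^ 2 * (1 - γ) ^ m ≤ (𝒩.card : ℝ) ^ 2 * Real.exp (-(2 * L)) :=
          mul_le_mul_of_nonneg_left hexp (sq_nonneg _)
      _ = Real.exp (2 * L) * Real.exp (-(2 * L)) := by
          rw [hNL, ← Real.exp_nat_mul]
          norm_num
      _ = 1 := by rw [← Real.exp_add, add_neg_cancel, Real.exp_zero]
  obtain ⟨T, hTB, hTm, hT⟩ := separate 𝒩 B γ hγ1 hB hsep hne m hm3
  have h1 := few_traces 𝒩 B d h T hTB (γ / 4) (by positivity) (by linarith)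
  rw [hT] at h1
  have h2 : (1 + γ / 4) ^ T.card ≤ Real.exp (1 / 4) * Real.sqrt 𝒩.card := by
    have h3 : 1 + γ / 4 ≤ Real.exp (γ / 4) := by
      have := Real.add_one_le_exp (γ / 4)
      linarith
    calc (1 + γ / 4) ^ T.card ≤ (1 + γ / 4) ^ m := pow_le_pow_right₀ (by linarith) hTm
      _ ≤ (Real.exp (γ / 4)) ^ m := pow_le_pow_left₀ (by positivity) h3 m
      _ = Real.exp (m * (γ / 4)) := by rw [← Real.exp_nat_mul]
      _ ≤ Real.exp (1 / 4 + L / 2) := by
          rw [Real.exp_le_exp]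
          calc (m : ℝ) * (γ / 4) ≤ (2 * L / γ + 1) * (γ / 4) :=
                mul_le_mul_of_nonneg_right hm2 (by positivity)
            _ = L / 2 + γ / 4 := by field_simp; ring
            _ ≤ 1 / 4 + L / 2 := by linarith
      _ = Real.exp (1 / 4) * Real.sqrt 𝒩.card := by
          rw [Real.exp_add]
          congr 1
          rw [hNL, Real.sqrt_eq_rpow, ← Real.exp_mul]
          congr 1
          ring
  have hs : Real.sqrt 𝒩.card * Real.sqrt 𝒩.card = 𝒩.card := Real.mul_self_sqrt (by linarith)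
  have hs0 : 0 < Real.sqrt 𝒩.card := Real.sqrt_pos.2 (by linarith)
  have h4 : Real.sqrt 𝒩.card * (γ / 4) ^ d ≤ Real.exp (1 / 4) := by
    have h5 : Real.sqrt 𝒩.card * (Real.sqrt 𝒩.card * (γ / 4) ^ d) ≤
        Real.sqrt 𝒩.card * Real.exp (1 / 4) := by
      calc _ = (𝒩.card : ℝ) * (γ / 4) ^ d := by rw [← mul_assoc, hs]
        _ ≤ _ := h1.trans h2
        _ = _ := mul_comm _ _
    exact le_of_mul_le_mul_left h5 hs0
  have h6 : Real.exp (1 / 4) ≤ 4 / 3 := by
    have h7 : Real.exp (1 / 4) ^ 4 ≤ (4 / 3 : ℝ) ^ 4 := by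
      rw [← Real.exp_nat_mul]
      have := Real.exp_one_lt_d9
      norm_num
      linarith
    exact (pow_le_pow_iff_left₀ (Real.exp_pos _).le (by norm_num) (by norm_num)).1 h7
  have h8 : (4 / γ) ^ d * (γ / 4) ^ d = 1 := by
    rw [← mul_pow]
    have : 4 / γ * (γ / 4) = 1 := by field_simp
    rw [this, one_pow]
  have h9 : 0 < (4 / γ) ^ d := by positivity
  calc Real.sqrt 𝒩.card = Real.sqrt 𝒩.card * ((4 / γ) ^ d * (γ / 4) ^ d) := by rw [h8, mul_one]
    _ = (Real.sqrt 𝒩.card * (γ / 4) ^ d) * (4 / γ) ^ d := by ring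
    _ ≤ Real.exp (1 / 4) * (4 / γ) ^ d := mul_le_mul_of_nonneg_right h4 h9.le
    _ ≤ 4 / 3 * (4 / γ) ^ d := mul_le_mul_of_nonneg_right h6 h9.le

end Pool.Agent.V7H48.VC
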