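import Pool.Agent.V7H48.VC.Paley

/-! # Sets shattered by the Paley graph between two sets -/

set_option autoImplicit false

namespace Pool.Agent.V7H48.VC

open Finset Pool.Agent.N793.PG

/-- every subset of `T` is the set of the `b ∈ T` with `χ (a + b) = 1`, for some `a ∈ A` -/
def Cuts {p : ℕ} (χ : MulChar (ZMod p) ℂ) (A T : Finset (ZMod p)) : Prop :=
  ∀ S ⊆ T, ∃ a ∈ A, ∀ b ∈ T, (χ (a + b) = 1 ↔ b ∈ S)

theorem exp_neg_four : Real.exp (-4) ≤ 0.0184 := by
  have h1 := Real.exp_one_gt_d9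
  have h2 : Real.exp 4 = Real.exp 1 ^ 4 := by rw [← Real.exp_nat_mul]; norm_num
  have h3 : (2.7182818283 : ℝ) ^ 4 ≤ Real.exp 1 ^ 4 := pow_le_pow_left₀ (by norm_num) h1.le 4
  rw [Real.exp_neg, h2, inv_le_comm₀ (by positivity) (by norm_num)]
  refine le_trans ?_ h3
  norm_num

variable {p : ℕ} [Fact p.Prime] (χ : MulChar (ZMod p) ℂ)

/-- **Shattered sets.** -/
theorem MaxBound.cuts (hq : ∀ t, χ t = 0 ∨ χ t = 1 ∨ χ t = -1) {A B : Finset (ZMod p)} {η : ℝ}
    (hη : 0 < η) (h : MaxBound χ A B η) (hA : A.Nonempty) (hB : 10 ≤ B.card) (k : ℕ)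
    (hk : 1 ≤ k) (hkη : η ≤ Real.exp (-(4 * k))) : ∃ T ⊆ B, T.card = k ∧ Cuts χ A T := by
  classical
  by_contra hcon
  push Not at hcon
  set J : ZMod p → Finset (ZMod p) := fun a => B.filter fun b => χ (a + b) = 1 with hJ
  have hvc : VCle A B J (k - 1) := by
    intro T hT hS
    by_contra hlt
    obtain ⟨T', hT', hc⟩ := exists_subset_card_eq (s := T) (n := k) (by omega)
    refine hcon T' (hT'.trans hT) hc fun S hS' => ?_
    obtain ⟨a, ha, haS⟩ := hS S (hS'.trans hT')
    refine ⟨a, ha, fun b hb => ?_⟩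
    rw [← haS, mem_inter, hJ]
    simp only [mem_filter]
    exact ⟨fun h1 => ⟨⟨hT (hT' hb), h1⟩, hT' hb⟩, fun h1 => h1.1.2⟩
  have h1 := h (k - 1) J hvc
  have hwhole := h.whole
  have hkR : (1 : ℝ) ≤ k := by exact_mod_cast hk
  have hA0 : (0 : ℝ) < A.card := by exact_mod_cast hA.card_pos
  have hB0 : (10 : ℝ) ≤ B.card := by exact_mod_cast hB
  have e4 := exp_neg_four
  have hη4 : η ≤ 0.0184 := by
    refine hkη.trans (le_trans ?_ e4)
    rw [Real.exp_le_exp]
    linarith
  have hηk : η ^ ((1 : ℝ) / (((k - 1 : ℕ) : ℝ) + 1)) ≤ 0.0184 := by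
    have e1 : (((k - 1 : ℕ) : ℝ) + 1) = k := by
      rw [Nat.cast_sub hk]; push_cast; ring
    rw [e1]
    calc η ^ ((1 : ℝ) / k) ≤ (Real.exp (-(4 * k))) ^ ((1 : ℝ) / k) :=
          Real.rpow_le_rpow hη.le hkη (by positivity)
      _ = Real.exp (-4) := by
          rw [← Real.exp_mul]
          congr 1
          field_simp
      _ ≤ _ := e4
  -- the partial sums are the numbers of the neighbours
  have e2 : ∀ a, ‖∑ b ∈ B ∩ J a, χ (a + b)‖ = ((J a).card : ℝ) := by
    intro a
    have h2 : B ∩ J a = J a := inter_eq_right.2 (filter_subset _ _)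
    rw [h2, sum_congr rfl fun b hb => (mem_filter.1 hb).2, sum_const, nsmul_eq_mul, mul_one,
      Complex.norm_natCast]
  simp only [e2] at h1
  have e3 : ∀ t : ZMod p, (χ t).re = 2 * (if χ t = 1 then (1 : ℝ) else 0) - 1 +
      (if t = 0 then (1 : ℝ) else 0) := by
    intro t
    rcases hq t with h2 | h2 | h2
    · have ht : t = 0 := by
        by_contra ht
        have := norm_unit χ ht
        rw [h2] at this
        simp at this
      rw [h2, if_pos ht]
      simp
    · have ht : t ≠ 0 := by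
        rintro rfl
        rw [MulChar.map_zero χ] at h2
        exact zero_ne_one h2
      rw [h2, if_neg ht]
      norm_num
    · have ht : t ≠ 0 := by
        rintro rfl
        rw [MulChar.map_zero χ] at h2
        norm_num at h2
      rw [h2, if_neg ht, if_neg (by norm_num)]
      norm_num
  have e5 : (∑ a ∈ A, ∑ b ∈ B, χ (a + b)).re = 2 * ∑ a ∈ A, ((J a).card : ℝ) -
      A.card * B.card + ∑ a ∈ A, ∑ b ∈ B, (if a + b = 0 then (1 : ℝ) else 0) := by
    rw [Complex.re_sum]
    have : ∀ a ∈ A, (∑ b ∈ B, χ (a + b)).re = 2 * ((J a).card : ℝ) - B.card +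
        ∑ b ∈ B, (if a + b = 0 then (1 : ℝ) else 0) := by
      intro a _
      rw [Complex.re_sum, sum_congr rfl fun b _ => e3 (a + b), sum_add_distrib, sum_sub_distrib,
        ← mul_sum, sum_boole]
      simp [hJ]
    rw [sum_congr rfl this, sum_add_distrib, sum_sub_distrib, ← mul_sum]
    simp
  have e6 : 0 ≤ ∑ a ∈ A, ∑ b ∈ B, (if a + b = 0 then (1 : ℝ) else 0) :=
    sum_nonneg fun a _ => sum_nonneg fun b _ => by split_ifs <;> norm_num
  have e7 : ∑ a ∈ A, ∑ b ∈ B, (if a + b = 0 then (1 : ℝ) else 0) ≤ A.card := by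
    calc ∑ a ∈ A, ∑ b ∈ B, (if a + b = 0 then (1 : ℝ) else 0) ≤ ∑ a ∈ A, (1 : ℝ) := by
          refine sum_le_sum fun a _ => ?_
          calc ∑ b ∈ B, (if a + b = 0 then (1 : ℝ) else 0) =
              ∑ b ∈ B, (if b = -a then (1 : ℝ) else 0) := by
                refine sum_congr rfl fun b _ => ?_
                congr 1
                rw [eq_iff_iff]
                constructor
                · intro h3; exact eq_neg_of_add_eq_zero_right h3
                · rintro rfl; exact add_neg_cancel a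
            _ ≤ 1 := by
                rw [sum_ite_eq']
                split_ifs <;> norm_num
      _ = A.card := by simp
  have e8 : -(∑ a ∈ A, ∑ b ∈ B, χ (a + b)).re ≤ 16 * η * A.card * B.card :=
    (neg_le_abs _).trans ((Complex.abs_re_le_norm _).trans hwhole)
  have hAB : 0 < (A.card : ℝ) * B.card := by positivity
  have e9 : (A.card : ℝ) ≤ 0.1 * (A.card * B.card) := by nlinarith
  have e10 : 16 * η * A.card * B.card ≤ 0.2944 * (A.card * B.card) := by
    calc 16 * η * A.card * B.card = (16 * η) * (A.card * B.card) := by ring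
      _ ≤ 0.2944 * (A.card * B.card) := mul_le_mul_of_nonneg_right (by linarith) hAB.le
  have e11 : ∑ a ∈ A, ((J a).card : ℝ) ≤ 0.2944 * (A.card * B.card) := by
    calc _ ≤ _ := h1
      _ = (16 * η ^ ((1 : ℝ) / (((k - 1 : ℕ) : ℝ) + 1))) * (A.card * B.card) := by ring
      _ ≤ 0.2944 * (A.card * B.card) := mul_le_mul_of_nonneg_right (by linarith) hAB.le
  nlinarith

end Pool.Agent.V7H48.VC
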